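import Pool.Agent.QUD.StmtsU
import Pool.Agent.Helper5_PM.M141

/-!
# Squad QUD, row ALB: the group of the types B, H vanishes or has an exact half-integer order
-/

set_option autoImplicit false

namespace Pool.Agent.QUD.H35

open MeasureTheory Filter Topology Real Set Pool.Agent.AEU Pool.Agent.AEU.H12 Pool.Agent.XQ
  Pool.Agent.XQ.U
open Pool.Agent.XQ.U.H48 (Good TT_add TT_sub TT_sum)

theorem dB_obt {p : ℝ × ℝ} (h : obt p) (v : ℝ) : dB v p = 0 := by
  have h0 : om p = 0 := if_pos h
  unfold dB ct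
  rw [h0]
  ring

theorem good_dB (hreg : RegStmt) {L : ℝ} (hL : 0 < L) {p : ℝ × ℝ} (hp : Kil p) :
    Good (fun v => dB v p) := by
  by_cases h : obt p
  · have e : (fun v => dB v p) = fun _ => (0 : ℝ) := funext fun v => dB_obt h v
    rw [e]
    exact Good.const 0
  · obtain ⟨h1, h2, h3, -⟩ := hreg L p hL hp h
    exact ⟨h1, h2, h3⟩

theorem TT_dB (hreg : RegStmt) {L κ : ℝ} (hL : 0 < L) (hκ : 0 < κ) {p : ℝ × ℝ} (hp : Kil p) :
    gBp L κ p = H48.TT L κ (fun v => dB v p) := by
  by_cases h : obt p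
  · have e : (fun v => dB v p) = fun _ => (0 : ℝ) := funext fun v => dB_obt h v
    rw [e]
    have h0 : gBp L κ p = 0 := if_pos h
    rw [h0]
    show (0 : ℝ) = 1 / π * ∫ v : ℝ, rexp (-(κ * L * cosh v)) * (0 : ℝ)
    simp
  · obtain ⟨-, -, -, h4⟩ := hreg L p hL hp h
    have h0 : gBp L κ p = gE L p.1 p.2 κ := if_neg h
    rw [h0, h4 κ hκ]
    rfl

/-- ALB -/
theorem alb (hreg : RegStmt) (hlead : LeadBStmt) : AlbStmt := by
  intro L l l' hL hl hl'
  have g1 : Good (fun v => (l.map fun p => dB v p).sum) :=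
    Good.sum l (fun p v => dB v p) fun p hp => good_dB hreg hL (hl p hp)
  have g2 : Good (fun v => (l'.map fun p => dB v p).sum) :=
    Good.sum l' (fun p v => dB v p) fun p hp => good_dB hreg hL (hl' p hp)
  have g := g1.sub g2
  have hrep : ∀ κ : ℝ, 0 < κ → (l.map (gBp L κ)).sum - (l'.map (gBp L κ)).sum =
      1 / π * ∫ v : ℝ, rexp (-(κ * L * cosh v)) *
        ((l.map fun p => dB v p).sum - (l'.map fun p => dB v p).sum) := by
    intro κ hκ
    have e1 : H48.TT L κ (fun v => (l.map fun p => dB v p).sum) = (l.map (gBp L κ)).sum := by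
      rw [TT_sum hL hκ l (fun p v => dB v p) fun p hp => good_dB hreg hL (hl p hp)]
      congr 1
      refine List.map_congr_left fun p hp => ?_
      exact (TT_dB hreg hL hκ (hl p hp)).symm
    have e2 : H48.TT L κ (fun v => (l'.map fun p => dB v p).sum) = (l'.map (gBp L κ)).sum := by
      rw [TT_sum hL hκ l' (fun p v => dB v p) fun p hp => good_dB hreg hL (hl' p hp)]
      congr 1
      refine List.map_congr_left fun p hp => ?_
      exact (TT_dB hreg hL hκ (hl' p hp)).symm
    rw [← e1, ← e2, ← TT_sub hL hκ g1 g2]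
    rfl
  rcases hlead L _ hL g.an g.ev g.bd with h0 | ⟨j, c, hc, hl0⟩
  · left
    have h1 : ∀ v, (l.map fun p => dB v p).sum - (l'.map fun p => dB v p).sum = 0 := fun v =>
      congrFun h0 v
    refine ⟨fun v => sub_eq_zero.mp (h1 v), 0, 1, one_pos, ?_⟩
    filter_upwards [eventually_gt_atTop 0] with κ hκ
    rw [hrep κ hκ]
    simp [h1]
  · right
    refine ⟨j, 1 / π * c, mul_ne_zero (by positivity) hc, ?_⟩
    have h1 : Lead (fun κ => 1 / π * ∫ v : ℝ, rexp (-(κ * L * cosh v)) *
        ((l.map fun p => dB v p).sum - (l'.map fun p => dB v p).sum)) L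
        (1 / 2 + j) (1 / π * c) := Lead.const_mul (1 / π) hl0
    refine Tendsto.congr' ?_ h1
    filter_upwards [eventually_gt_atTop 0] with κ hκ
    rw [hrep κ hκ]

end Pool.Agent.QUD.H35
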