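import Pool.Agent.QUD.StmtsX

/-!
# Squad QUD, row CMS: a common side
-/

set_option autoImplicit false

namespace Pool.Agent.QUD.H35

open MeasureTheory Complex Filter Topology ProbabilityTheory Pool.Agent.H16Iso Pool.Agent.H62T
open Pool.Agent.H16F (Sublin ind)
open Pool.Agent.AEU Pool.Agent.XQ

theorem vxOf_symm {X : Finset HP} {s t : HP} {v : ℂ} (h : VxOf X s t v) : VxOf X t s v :=
  ⟨h.cl, h.mem₂, h.mem₁, h.ne.symm, h.on₂, h.on₁⟩

theorem ip_symm (z w : ℂ) : ip z w = ip w z := by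
  unfold ip
  ring

theorem sd_symm {X : Finset HP} {x y l : ℝ} (h : Sd X x y l) : Sd X y x l := by
  obtain ⟨i, j, k, v, w, hv, hw, hik, cx, cy, hl⟩ := h
  exact ⟨k, j, i, w, v, vxOf_symm hw, vxOf_symm hv, hik.symm, by rw [ip_symm]; exact cy,
    by rw [ip_symm]; exact cx, by rw [norm_sub_rev]; exact hl⟩

theorem sn_big {t : ℝ} (h : Real.pi / 2 ≤ t) : sn t = 1 := if_neg (not_lt.mpr h)

theorem sn_small {t : ℝ} (h : t < Real.pi / 2) : sn t = Real.sin t := if_pos h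

/-- the case of the type B -/
theorem caseB (hncl : NclStmt) {Q : Finset HP} {L l0 u t : ℝ} (hQ : Pg Q) (hL : 0 < L)
    (hb : Below Q L) (hu : u < Real.pi) (ht0 : 0 < t) (ht : t < Real.pi / 2)
    (hs : Real.pi < u + t) (hl : L / 2 = l0 * Real.sin t) (q : ℝ × ℝ) (hq : PB Q L q)
    (h1 : q.1 = u) (h2 : q.2 = Real.pi / 2 - t ∨ q.2 = q.1 - (Real.pi / 2 - t)) :
    Sd Q u t l0 := by
  have main : ∀ (i j f : HP) (v : ℂ), VxOf Q i j v → f ∈ Q → f ≠ i → f ≠ j →
      ip f.1 v = f.2 - L / 2 →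
      (∀ s ∈ Q, s ≠ f → ip s.1 (v + ((L / 2 : ℝ) : ℂ) * f.1) < s.2) →
      ip i.1 j.1 = -Real.cos u → ip j.1 f.1 = -Real.sin (Real.pi / 2 - t) →
      ip i.1 f.1 = -Real.sin (u - (Real.pi / 2 - t)) → Sd Q u t l0 := by
    intro i j f v hv hf hfi hfj hfv hin c1 c2 c3
    obtain ⟨w, hw, hw2⟩ := hncl Q L hQ hL hb i j f v u (Real.pi / 2 - t) hv hf hfi hfj hfv hin
      (by linarith) hu (by linarith) (by linarith) c1 c2 c3
    rw [Real.cos_pi_div_two_sub] at hw2
    rw [Real.sin_pi_div_two_sub] at c2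
    have hsin : 0 < Real.sin t := Real.sin_pos_of_pos_of_lt_pi ht0 (by linarith)
    refine ⟨i, j, f, v, w, hv, hw, hfi.symm, c1, c2, ?_⟩
    have h3 : ‖v - w‖ * Real.sin t = l0 * Real.sin t := by rw [hw2, hl]
    exact mul_right_cancel₀ hsin.ne' h3
  obtain ⟨i, j, f, v, hv, hf, hfi, hfj, hfv, hin, c1, c2, c3⟩ := hq
  rcases h2 with h2 | h2
  · refine main j i f v (vxOf_symm hv) hf hfj hfi hfv hin ?_ ?_ ?_
    · rw [ip_symm, c1, h1]
    · rw [c2, h2]
    · rw [c3, h1, h2]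
  · refine main i j f v hv hf hfi hfj hfv hin ?_ ?_ ?_
    · rw [c1, h1]
    · rw [c3]
      congr 2
      rw [h2]
      ring
    · rw [c2, h2, h1]

/-- a common side -/
theorem core (hncl : NclStmt) {P Q : Finset HP} {L : ℝ} (hQ : Pg Q) (hL : 0 < L)
    (hb : Below Q L) {A B : List (ℝ × ℝ)} {H : List ℝ} (hA : ∀ p ∈ A, PA Q L p)
    (hB : ∀ p ∈ B, PB Q L p) (hH : ∀ α ∈ H, PH Q L α) {a b c : HP}
    (hab : VxOf P a b (vx a b)) (hbc : VxOf P b c (vx b c)) (hac : a ≠ c) {x y : ℝ}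
    (hd : Die a b c L x y)
    (h1 : obt (x, y) → ∃ q ∈ A, (q.1 = Real.pi - x ∧ q.2 = Real.pi - y) ∨
      (q.1 = Real.pi - y ∧ q.2 = Real.pi - x))
    (h2 : ¬ obt (x, y) → min x y < Real.pi / 2 → ∃ q ∈ B, q.1 = max x y ∧
      (q.2 = Real.pi / 2 - min x y ∨ q.2 = q.1 - (Real.pi / 2 - min x y)))
    (h3 : ¬ obt (x, y) → min x y = Real.pi / 2 → max x y ∈ H) :
    ∃ x y l0 : ℝ, 0 < x ∧ x < Real.pi ∧ 0 < y ∧ y < Real.pi ∧ Real.pi < x + y ∧ 0 < l0 ∧
      Sd P x y l0 ∧ Sd Q x y l0 := by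
  have hx0 := hd.x0
  have hx1 := hd.x1
  have hy0 := hd.y0
  have hy1 := hd.y1
  have hsum := hd.sum
  have hlen := hd.len
  have hl0 : 0 < ‖vx a b - vx b c‖ := by
    rcases (norm_nonneg (vx a b - vx b c)).lt_or_eq with h | h
    · exact h
    · rw [← h] at hlen
      linarith
  refine ⟨x, y, ‖vx a b - vx b c‖, hx0, hx1, hy0, hy1, hsum, hl0,
    ⟨a, b, c, vx a b, vx b c, hab, hbc, hac, hd.cx, hd.cy, rfl⟩, ?_⟩
  by_cases ho : obt (x, y)
  · -- type A
    have ho1 : Real.pi / 2 < x := ho.1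
    have ho2 : Real.pi / 2 < y := ho.2
    rw [sn_big ho1.le, sn_big ho2.le, mul_one, mul_one] at hlen
    obtain ⟨q, hq, hqq⟩ := h1 ho
    obtain ⟨i, j, k, v, w, hv, hw, hik, c1, c2, hl⟩ := hA q hq
    have hvw : ‖v - w‖ = ‖vx a b - vx b c‖ := by linarith
    rcases hqq with ⟨e1, e2⟩ | ⟨e1, e2⟩
    · rw [e1, Real.cos_pi_sub] at c1
      rw [e2, Real.cos_pi_sub] at c2
      exact ⟨i, j, k, v, w, hv, hw, hik, c1, c2, hvw⟩
    · rw [e1, Real.cos_pi_sub] at c1
      rw [e2, Real.cos_pi_sub] at c2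
      exact sd_symm ⟨i, j, k, v, w, hv, hw, hik, c1, c2, hvw⟩
  · rcases le_total y x with hyx | hxy
    · -- the small angle is `y`
      have hmin : min x y = y := min_eq_right hyx
      have hmax : max x y = x := max_eq_left hyx
      have hx2 : Real.pi / 2 < x := by linarith
      have hy2 : y ≤ Real.pi / 2 := by
        by_contra hcon
        exact ho ⟨hx2, not_le.mp hcon⟩
      rcases hy2.lt_or_eq with hy3 | hy3
      · obtain ⟨q, hq, e1, e2⟩ := h2 ho (by rw [hmin]; exact hy3)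
        rw [hmin] at e2
        rw [hmax] at e1
        rw [sn_big hx2.le, sn_small hy3, mul_one] at hlen
        exact caseB hncl hQ hL hb hx1 hy0 hy3 hsum hlen q (hB q hq) e1 e2
      · have h4 := h3 ho (by rw [hmin]; exact hy3)
        rw [hmax] at h4
        obtain ⟨i, j, k, v, w, hv, hw, hik, c1, c2, hl⟩ := hH x h4
        rw [sn_big hx2.le, sn_big hy3.ge, mul_one, mul_one] at hlen
        refine ⟨i, j, k, v, w, hv, hw, hik, c1, ?_, by linarith⟩
        rw [c2, hy3, Real.cos_pi_div_two, neg_zero]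
    · have hmin : min x y = x := min_eq_left hxy
      have hmax : max x y = y := max_eq_right hxy
      have hy2 : Real.pi / 2 < y := by linarith
      have hx2 : x ≤ Real.pi / 2 := by
        by_contra hcon
        exact ho ⟨not_le.mp hcon, hy2⟩
      rcases hx2.lt_or_eq with hx3 | hx3
      · obtain ⟨q, hq, e1, e2⟩ := h2 ho (by rw [hmin]; exact hx3)
        rw [hmin] at e2
        rw [hmax] at e1
        rw [sn_small hx3, sn_big hy2.le, mul_one] at hlen
        exact sd_symm (caseB hncl hQ hL hb hy1 hx0 hx3 (by linarith) hlen q (hB q hq) e1 e2)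
      · have h4 := h3 ho (by rw [hmin]; exact hx3)
        rw [hmax] at h4
        obtain ⟨i, j, k, v, w, hv, hw, hik, c1, c2, hl⟩ := hH y h4
        rw [sn_big hx3.ge, sn_big hy2.le, mul_one, mul_one] at hlen
        refine sd_symm ⟨i, j, k, v, w, hv, hw, hik, c1, ?_, by linarith⟩
        rw [c2, hx3, Real.cos_pi_div_two, neg_zero]

theorem oA_pos {p : ℝ × ℝ} (l : List (ℝ × ℝ)) (h : obt p) : oA (p :: l) = p :: oA l := by
  unfold oA
  rw [List.filter_cons]
  simp [h]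

theorem oA_neg {p : ℝ × ℝ} (l : List (ℝ × ℝ)) (h : ¬ obt p) : oA (p :: l) = oA l := by
  unfold oA
  rw [List.filter_cons]
  simp [h]

theorem oA_nil : oA [] = [] := rfl

theorem die_kil {a b c : HP} {L x y : ℝ} (h : Die a b c L x y) : Kil (x, y) :=
  ⟨h.x0, h.x1, h.y0, h.y1, h.sum⟩

theorem kil_swap {x y : ℝ} (h : Kil (x, y)) : Kil (y, x) := by
  obtain ⟨h1, h2, h3, h4, h5⟩ := h
  exact ⟨h3, h4, h1, h2, by rw [add_comm]; exact h5⟩

/-- CMS -/
theorem cms (hfsx : FsxStmt) (hbax : BaxStmt) (hcls : ClsStmt) (hncl : NclStmt)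
    (hht1 : Ht1Stmt) (_hvxx : VxxStatement) : CmsStmt := by
  intro hfb P Q hP hPc hQ hiso
  obtain ⟨L, hL, hbP, hbQ, hhit, l, g, r, A, B, H, J, hlst, hits, hJ, hsm⟩ :=
    hfsx hfb P Q hP hPc hQ hiso
  have hPg : Pg P := by
    obtain ⟨a, b, c, d, hcyc, rfl⟩ := hP
    exact hcyc.pg
  -- the hypotheses of BAX
  have hl : (∀ p ∈ l, Kil p) ∧ (oA l).length ≤ 1 ∧ l.length ≤ (oA l).length + 1 := by
    rcases hlst with ⟨rfl, -⟩ | ⟨a, b, c, d, x, y, -, -, hd, -, rfl⟩ |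
      ⟨a, b, c, d, x, y, z, hPe, hcyc, hd, hd', -, rfl⟩
    · refine ⟨by simp, by simp [oA_nil], by simp⟩
    · refine ⟨?_, ?_, by simp⟩
      · intro p hp
        rw [List.mem_singleton] at hp
        rw [hp]
        exact die_kil hd
      · by_cases ho : obt (x, y)
        · rw [oA_pos _ ho, oA_nil]
          simp
        · rw [oA_neg _ ho, oA_nil]
          simp
    · refine ⟨?_, ?_⟩
      · intro p hp
        rcases List.mem_cons.mp hp with hp | hp
        · rw [hp]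
          exact die_kil hd
        · rw [List.mem_singleton] at hp
          rw [hp]
          exact kil_swap (die_kil hd')
      · have hPc' := hPc
        rw [hPe] at hPc'
        rcases hcls a b c d L x y z hcyc hL hPc' hd hd' with ⟨o1, o2⟩ | ⟨o1, o2⟩
        · rw [oA_pos _ o1, oA_neg _ o2, oA_nil]
          simp
        · rw [oA_neg _ o1, oA_pos _ o2, oA_nil]
          simp
  obtain ⟨hl1, hl2, hl3⟩ := hl
  have hJ' : J = 0 ∨ ∃ c κ0 : ℝ, 0 < c ∧ 0 < κ0 ∧ ∀ κ : ℝ, κ0 ≤ κ →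
      c * κ ^ (1 / 2 : ℝ) * Real.exp (-(L * κ)) ≤ J κ := by
    by_cases h : ∃ a a', FacePair Q L a a'
    · exact Or.inr (hJ.2 h)
    · exact Or.inl (hJ.1 fun a a' hf => h ⟨a, a', hf⟩)
  obtain ⟨hJ0, hg0, hr0, hnil, hitem⟩ := hbax L l g r A B H J hL hl1 hl2 hl3
    (fun p hp => (hits.hA p hp).1) (fun p hp => ⟨(hits.hB p hp).1, (hits.hB p hp).2.1⟩)
    (fun α hα => ⟨(hits.hH α hα).1, (hits.hH α hα).2.1⟩) hJ' hsm
  -- no facing pairs
  have hfQ : ∀ a a', ¬ FacePair Q L a a' := by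
    intro a a' hf
    obtain ⟨c, κ0, hc, hκ, h⟩ := hJ.2 ⟨a, a', hf⟩
    have h1 := h κ0 le_rfl
    rw [hJ0] at h1
    have h2 : 0 < c * κ0 ^ (1 / 2 : ℝ) * Real.exp (-(L * κ0)) :=
      mul_pos (mul_pos hc (Real.rpow_pos_of_pos hκ _)) (Real.exp_pos _)
    exact absurd h1 (not_le.mpr h2)
  have hfP : ∀ a a', ¬ FacePair P L a a' := by
    intro a a' hf
    have hu := hPg.unit a hf.mem
    have hne : a ≠ a' := by
      intro he
      have h1 := hf.opp
      rw [← he] at h1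
      have h2 : a.1 = 0 := by
        have h3 : a.1 + a.1 = 0 := by
          nth_rewrite 1 [h1]
          exact neg_add_cancel _
        have h4 : (2 : ℂ) * a.1 = 0 := by rw [two_mul]; exact h3
        rcases mul_eq_zero.mp h4 with h | h
        · norm_num at h
        · exact h
      rw [h2, norm_zero] at hu
      exact zero_ne_one hu
    refine hPc.1 a hf.mem a' hf.mem' hne ?_
    rw [hf.opp]
    unfold dt
    simp
    ring
  -- the main step
  have fin : ∀ (a b c d : HP) (x y : ℝ), P = {a, b, c, d} → Cyc a b c d → Die a b c L x y →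
      (x, y) ∈ l → ∃ x y l0 : ℝ, 0 < x ∧ x < Real.pi ∧ 0 < y ∧ y < Real.pi ∧
        Real.pi < x + y ∧ 0 < l0 ∧ Sd P x y l0 ∧ Sd Q x y l0 := by
    intro a b c d x y hPe hcyc hd hm
    obtain ⟨k1, k2, k3⟩ := hitem (x, y) hm
    have hab := hcyc.vab
    have hbc := hcyc.vbc
    rw [← hPe] at hab hbc
    exact core hncl hQ hL hbQ (fun p hp => (hits.hA p hp).2) (fun p hp => (hits.hB p hp).2.2)
      (fun α hα => (hits.hH α hα).2.2) hab hbc hcyc.ne.2.1 hd k1 k2 k3
  rcases hlst with ⟨hl0, hN⟩ | ⟨a, b, c, d, x, y, hPe, hcyc, hd, -, hle⟩ |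
      ⟨a, b, c, d, x, y, z, hPe, hcyc, hd, hd', -, hle⟩
  · exfalso
    obtain ⟨a1, a2, a3⟩ := hnil hl0
    have hNQ : N1 Q L = ∅ := by
      rcases hits.ne with h | h
      · exact h
      · rw [hg0, hr0, a1, a2, a3] at h
        simp at h
    rcases hhit with h | h
    · have := hht1 P L hPg hL hbP h hfP
      rw [hN] at this
      exact Finset.not_nonempty_empty this
    · have := hht1 Q L hQ hL hbQ h hfQ
      rw [hNQ] at this
      exact Finset.not_nonempty_empty this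
  · exact fin a b c d x y hPe hcyc hd (by rw [hle]; simp)
  · exact fin a b c d x y hPe hcyc hd (by rw [hle]; simp)

end Pool.Agent.QUD.H35
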