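import Pool.Agent.QUD.StmtsY
import Pool.Agent.Helper35_QUD.CMS

/-!
# Squad QUD, row CMY: the comparison of the two polygons, larger class
-/

set_option autoImplicit false

namespace Pool.Agent.QUD.H35

open MeasureTheory Complex Filter Topology ProbabilityTheory Pool.Agent.H16Iso Pool.Agent.H62T
open Pool.Agent.H16F (Sublin ind)
open Pool.Agent.AEU Pool.Agent.XQ

theorem ncl_of_nck (h : NckStmt) : NclStmt := by
  intro X L hX hL hb i j q v α η hv hq hqi hqj hqv hin ha ha' he he' c1 c2 c3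
  exact h X L hX hL hb i j q v α η hv hq hqi hqj hqv hin ha ha' he (by linarith) (by linarith)
    c1 c2 c3

theorem mtc_swap {A B : List (ℝ × ℝ)} {H : List ℝ} {x y : ℝ} (h : Mtc A B H (x, y)) :
    Mtc A B H (y, x) := by
  obtain ⟨h1, h2, h3⟩ := h
  refine ⟨?_, ?_, ?_⟩
  · intro ho
    obtain ⟨q, hq, h | h⟩ := h1 ⟨ho.2, ho.1⟩
    · exact ⟨q, hq, Or.inr h⟩
    · exact ⟨q, hq, Or.inl h⟩
  · intro ho hm
    have hm' : min x y < Real.pi / 2 := by
      rw [min_comm]
      exact hm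
    obtain ⟨q, hq, h4, h5⟩ := h2 (fun hh => ho ⟨hh.2, hh.1⟩) hm'
    refine ⟨q, hq, ?_, ?_⟩
    · rw [h4]
      exact max_comm _ _
    · have e : min (y, x).1 (y, x).2 = min (x, y).1 (x, y).2 := min_comm _ _
      rw [e]
      exact h5
  · intro ho hm
    have hm' : min x y = Real.pi / 2 := by
      rw [min_comm]
      exact hm
    have h4 := h3 (fun hh => ho ⟨hh.2, hh.1⟩) hm'
    have e : max (y, x).1 (y, x).2 = max (x, y).1 (x, y).2 := max_comm _ _
    rw [e]
    exact h4

theorem not_zero_of_lb {L : ℝ} {J : ℝ → ℝ} (h : ∃ c κ0 : ℝ, 0 < c ∧ 0 < κ0 ∧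
    ∀ κ : ℝ, κ0 ≤ κ → c * κ ^ (1 / 2 : ℝ) * Real.exp (-(L * κ)) ≤ J κ) : J ≠ 0 := by
  intro h0
  obtain ⟨c, κ0, hc, hκ, h⟩ := h
  have h1 := h κ0 le_rfl
  rw [h0] at h1
  have h2 : 0 < c * κ0 ^ (1 / 2 : ℝ) * Real.exp (-(L * κ0)) :=
    mul_pos (mul_pos hc (Real.rpow_pos_of_pos hκ _)) (Real.exp_pos _)
  exact absurd h1 (not_le.mpr h2)

theorem ib_bd {B : List (ℝ × ℝ)} {H : List ℝ} {α f : ℝ} (h : Ib B H α f)
    (hα : Real.pi / 2 < α) : 0 ≤ f ∧ f < α - Real.pi / 2 := by
  rcases h with ⟨h1, -⟩ | ⟨h1, h2, -⟩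
  · rw [h1]
    exact ⟨le_rfl, by linarith⟩
  · exact ⟨h1.le, h2⟩

/-- CMY -/
theorem cmy (hfsy : FsyStmt) (hcly : ClyStmt) (hba2 : Ba2Stmt) (hht1 : Ht1Stmt)
    (hnck : NckStmt) (hncm : NcmStmt) (hncj : NcjStmt) (hitb : ItbStmt)
    (_hvxx : VxxStatement) : CmyStmt := by
  intro hfb P Q hP hPc hQ hiso
  obtain ⟨L, hL, hbP, hbQ, hhit, l, g, r, A, B, H, JP, J, hlst, hits, hJP, hJ, hsm⟩ :=
    hfsy hfb P Q hP hQ hiso
  have hPg : Pg P := by
    obtain ⟨a, b, c, d, hcyc, rfl⟩ := hP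
    exact hcyc.pg
  obtain ⟨htwo, htie⟩ := hcly P L l hL hPc hlst
  have hok : OkL A B H := ⟨fun p hp => (hits.hA p hp).1,
    fun p hp => ⟨(hits.hB p hp).1, (hits.hB p hp).2.1⟩,
    fun α hα => ⟨(hits.hH α hα).1, (hits.hH α hα).2.1⟩⟩
  have hpP : PosJ L JP := by
    by_cases h : ∃ a a', FacePair P L a a'
    · exact Or.inr (hJP.2 h)
    · exact Or.inl (hJP.1 fun a a' hf => h ⟨a, a', hf⟩)
  have hpQ : PosJ L J := by
    by_cases h : ∃ a a', FacePair Q L a a'
    · exact Or.inr (hJ.2 h)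
    · exact Or.inl (hJ.1 fun a a' hf => h ⟨a, a', hf⟩)
  obtain ⟨hne, hz⟩ := hba2 L l g r A B H JP J hL htwo htie hok hpP hpQ hsm
  by_cases hfP : ∃ a a', FacePair P L a a'
  · -- a facing pair of `P`
    left
    have hJ0 : J ≠ 0 := hne (not_zero_of_lb (hJP.2 hfP))
    have hfQ : ∃ a a', FacePair Q L a a' := by
      by_contra h
      exact hJ0 (hJ.1 fun a a' hf => h ⟨a, a', hf⟩)
    obtain ⟨a, a', hf⟩ := hfQ
    exact hncj Q L hQ hL hbQ a a' hf
  · have hfP' : ∀ a a', ¬ FacePair P L a a' := fun a a' hf => hfP ⟨a, a', hf⟩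
    obtain ⟨hJ0, hg0, hr0, hnil, hcons⟩ := hz (hJP.1 hfP')
    have hfQ : ∀ a a', ¬ FacePair Q L a a' := fun a a' hf =>
      not_zero_of_lb (hJ.2 ⟨a, a', hf⟩) hJ0
    have hl0 : l ≠ [] := by
      intro hl0
      obtain ⟨a1, a2, a3⟩ := hnil hl0
      have hNP : N1 P L = ∅ := by
        rcases hlst with ⟨-, hN⟩ | ⟨a, b, c, d, x, y, -, -, -, -, hle⟩ |
          ⟨a, b, c, d, x, y, z, -, -, -, -, -, hle⟩
        · exact hN
        · rw [hl0] at hle
          simp at hle
        · rw [hl0] at hle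
          simp at hle
      have hNQ : N1 Q L = ∅ := by
        rcases hits.ne with h | h
        · exact h
        · rw [hg0, hr0, a1, a2, a3] at h
          simp at h
      rcases hhit with h | h
      · have := hht1 P L hPg hL hbP h hfP'
        rw [hNP] at this
        exact Finset.not_nonempty_empty this
      · have := hht1 Q L hQ hL hbQ h hfQ
        rw [hNQ] at this
        exact Finset.not_nonempty_empty this
    rcases hcons hl0 with ⟨p, hp, hm⟩ | hmid | ⟨a', b', c', f1, f2, hle, ha, hf12, hi1, hi2⟩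
    · -- a common side
      right
      right
      left
      have fin : ∀ (a b c : HP) (x y : ℝ), VxOf P a b (vx a b) → VxOf P b c (vx b c) →
          a ≠ c → Die a b c L x y → Mtc A B H (x, y) →
          ∃ x y l0 : ℝ, 0 < x ∧ x < Real.pi ∧ 0 < y ∧ y < Real.pi ∧
            Real.pi < x + y ∧ 0 < l0 ∧ Sd P x y l0 ∧ Sd Q x y l0 := by
        intro a b c x y hab hbc hac hd hm
        obtain ⟨k1, k2, k3⟩ := hm
        exact core (ncl_of_nck hnck) hQ hL hbQ (fun p hp => (hits.hA p hp).2)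
          (fun p hp => (hits.hB p hp).2.2) (fun α hα => (hits.hH α hα).2.2) hab hbc hac hd
          k1 k2 k3
      rcases hlst with ⟨hl, -⟩ | ⟨a, b, c, d, x, y, hPe, hcyc, hd, -, hle⟩ |
          ⟨a, b, c, d, x, y, z, hPe, hcyc, hd, hd', -, hle⟩
      · exact absurd hl hl0
      · have hab := hcyc.vab
        have hbc := hcyc.vbc
        rw [← hPe] at hab hbc
        rw [hle, List.mem_singleton] at hp
        rw [hp] at hm
        exact fin a b c x y hab hbc hcyc.ne.2.1 hd hm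
      · have hab := hcyc.vab
        have hbc := hcyc.vbc
        have hda := hcyc.vda
        rw [← hPe] at hab hbc hda
        rw [hle] at hp
        rcases List.mem_cons.mp hp with hp | hp
        · rw [hp] at hm
          exact fin a b c x y hab hbc hcyc.ne.2.1 hd hm
        · rw [List.mem_singleton] at hp
          rw [hp] at hm
          exact fin d a b z x hda hab hcyc.ne.2.2.2.2.1.symm hd' (mtc_swap hm)
    · -- the triangle
      right
      left
      obtain ⟨q, hq, h1, h2⟩ := hmid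
      obtain ⟨k1, k2, k3⟩ := hits.hB q hq
      have hqpi : q.1 < Real.pi := by
        rcases k1 with h | h
        · exact h.2.1
        · exact absurd h.1 (not_lt.mpr k2.le)
      exact hncm Q L q hQ hL hbQ k2 hqpi h1 h2 k3
    · -- the tie T8
      right
      right
      right
      rcases hlst with ⟨hl, -⟩ | ⟨a, b, c, d, x, y, hPe, hcyc, hd, -, hle'⟩ |
          ⟨a, b, c, d, x, y, z, hPe, hcyc, hd, hd', -, hle'⟩
      · exact absurd hl hl0
      · rw [hle'] at hle
        simp at hle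
      · rw [hle'] at hle
        simp only [List.cons.injEq, Prod.mk.injEq, and_true] at hle
        obtain ⟨⟨e1, e2⟩, e3, e4⟩ := hle
        rw [← e1] at ha
        rw [← e2] at hi1
        rw [← e4] at hi2
        have hy : Real.pi / 2 < y := by
          have := hd.sum
          linarith
        have hz' : Real.pi / 2 < z := by
          have := hd'.sum
          linarith
        obtain ⟨b1, b2⟩ := ib_bd hi1 hy
        obtain ⟨b3, b4⟩ := ib_bd hi2 hz'
        have s1 := hitb Q L B H hQ hL hbQ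
          (fun p hp => hits.hB p hp) (fun α hα => hits.hH α hα) y f1 hy hd.y1 hi1
        have s2 := hitb Q L B H hQ hL hbQ
          (fun p hp => hits.hB p hp) (fun α hα => hits.hH α hα) z f2 hz' hd'.x1 hi2
        exact ⟨a, b, c, d, L, x, y, z, f1, f2, _, _, hPe, hcyc, hd, hd', ha, b1, b2, b3, b4,
          hf12, s1, s2⟩

end Pool.Agent.QUD.H35
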