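import Pool.Agent.QUD.StmtsR

/-!
# Squad QUD, row ON0: one common side with its two end angles
-/

set_option autoImplicit false

namespace Pool.Agent.QUD.H35

open MeasureTheory Complex Pool.Agent.H16Iso
open Pool.Agent.H1Gen (det CCW poly)

theorem on0 (hcgr : CgrStmt) (hmot : MotStmt) (hwfo : WfoStmt) (hwnf : WnfStmt)
    (hwed : WedStmt) : On0Stmt := by
  intro v w hv hw har hpm hen ha0 ha1 hsum
  obtain ⟨crefl, csymm, ctrans⟩ := hcgr
  obtain ⟨g, p0, p1, q0, q1, hg, hp0, hp1, g0, gpi, p0p, p1p, pq0, pq1, mv⟩ := hwnf v hv hsum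
  have hsumw : Real.pi < an w 0 + an w 1 := by rw [← ha0, ← ha1]; exact hsum
  obtain ⟨g', p0', p1', r0, r1, hg', hp0', hp1', -, -, -, -, pr0, pr1, mw⟩ := hwnf w hw hsumw
  have eg : g' = g := by rw [hg', hg, ha0, ha1]
  subst eg
  have e0 : p0' = p0 := by rw [hp0', hp0, hen, ha1]
  have e1 : p1' = p1 := by rw [hp1', hp1, hen, ha0]
  subst e0
  subst e1
  obtain ⟨-, -, cv, arv, pmv, -⟩ := hmot v _ mv
  obtain ⟨-, -, cw, arw, pmw, -⟩ := hmot w _ mw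
  obtain ⟨-, fa, fp⟩ := hwfo g' p0' p1' q0 q1 g0 gpi p0p p1p pq0 pq1
  obtain ⟨-, ga, gp⟩ := hwfo g' p0' p1' r0 r1 g0 gpi p0p p1p pr0 pr1
  have hsin : 0 < Real.sin g' := Real.sin_pos_of_pos_of_lt_pi g0 gpi
  have hq0 : 0 < q0 := lt_trans p0p pq0
  have hq1 : 0 < q1 := lt_trans p1p pq1
  have hr0 : 0 < r0 := lt_trans p0p pr0
  have hr1 : 0 < r1 := lt_trans p1p pr1
  have hprod : q0 * q1 = r0 * r1 := by
    have h1 : Real.sin g' * (q0 * q1 - p0' * p1') / 2 = Real.sin g' * (r0 * r1 - p0' * p1') / 2 := by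
      rw [← fa, ← ga, ← arv, ← arw, har]
    have h2 : Real.sin g' * (q0 * q1 - r0 * r1) = 0 := by linarith
    rcases mul_eq_zero.mp h2 with h | h
    · exact absurd h hsin.ne'
    · linarith
  have hper : q0 + q1 + Real.sqrt (q0 ^ 2 + q1 ^ 2 - 2 * q0 * q1 * Real.cos g') =
      r0 + r1 + Real.sqrt (r0 ^ 2 + r1 ^ 2 - 2 * r0 * r1 * Real.cos g') := by
    have h1 := hpm
    rw [pmv, pmw, fp, gp] at h1
    linarith
  rcases hwed g' q0 q1 r0 r1 g0 gpi hq0 hq1 hr0 hr1 hprod hper with ⟨h0, h1⟩ | ⟨h0, h1⟩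
  · left
    subst h0
    subst h1
    exact ctrans _ _ _ cv (csymm _ _ cw)
  · right
    subst h0
    subst h1
    exact ⟨g', p0', p1', q0, q1, g0, gpi, p0p, p1p, pq0, pq1, pr0, pr1, cv, cw⟩

end Pool.Agent.QUD.H35
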