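import Pool.Agent.QUD.StmtsR

/-!
# Squad QUD, row ONE: one common side in arbitrary position
-/

set_option autoImplicit false

namespace Pool.Agent.QUD.H35

open MeasureTheory Complex Pool.Agent.H16Iso
open Pool.Agent.H1Gen (det CCW poly)

theorem one (hcgr : CgrStmt) (hrot : RotStmt) (href : RefStmt) (hon0 : On0Stmt) : OneStmt := by
  intro v w i j hv hw har hpm hen hsum hcase
  obtain ⟨crefl, csymm, ctrans⟩ := hcgr
  obtain ⟨cv, pv, av, mv, ev⟩ := hrot v hv i
  obtain ⟨cw, pw, aw, mw, ew⟩ := hrot w hw j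
  have z0 : ∀ k : Fin 4, (0 : Fin 4) + k = k := by decide
  have z1 : ∀ k : Fin 4, (1 : Fin 4) + k = k + 1 := by decide
  have ev0 := (ev 0).1
  have av0 := (ev 0).2
  have av1 := (ev 1).2
  have ew0 := (ew 0).1
  have aw0 := (ew 0).2
  have aw1 := (ew 1).2
  rw [z0] at ev0 av0 ew0 aw0
  rw [z1] at av1 aw1
  rcases hcase with ⟨h0, h1⟩ | ⟨h0, h1⟩
  · have h := hon0 _ _ cv cw (by rw [av, aw, har]) (by rw [mv, mw, hpm])
      (by rw [ev0, ew0, hen]) (by rw [av0, aw0, h0]) (by rw [av1, aw1, h1])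
      (by rw [av0, av1]; exact hsum)
    rw [pv, pw] at h
    exact h
  · obtain ⟨cm, gm, am, mm, em⟩ := href (fun k => w (k + j)) 1 cw
    have em0 := (em 0).1
    have bm0 := (em 0).2
    have bm1 := (em 1).2
    have d0 : (1 : Fin 4) - 0 - 1 = 0 := by decide
    have d1 : (1 : Fin 4) - 0 = 1 := by decide
    have d2 : (1 : Fin 4) - 1 = 0 := by decide
    rw [d0] at em0
    rw [d1] at bm0
    rw [d2] at bm1
    have h := hon0 _ _ cv cm (by rw [av, am, aw, har]) (by rw [mv, mm, mw, hpm])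
      (by rw [ev0, em0, ew0, hen]) (by rw [av0, bm0, aw1, h0]) (by rw [av1, bm1, aw0, h1])
      (by rw [av0, av1]; exact hsum)
    rw [pv] at h
    rw [pw] at gm
    rcases h with h | h
    · left
      exact ctrans _ _ _ h (csymm _ _ gm)
    · right
      obtain ⟨g, p0, p1, q0, q1, g0, gpi, p0p, p1p, pq0, pq1, pr0, pr1, c1, c2⟩ := h
      exact ⟨g, p0, p1, q0, q1, g0, gpi, p0p, p1p, pq0, pq1, pr0, pr1, c1, ctrans _ _ _ gm c2⟩

end Pool.Agent.QUD.H35
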