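import Pool.Agent.QUD.StmtsU

/-!
# Squad QUD, row SEU: separation of the two groups of items
-/

set_option autoImplicit false

namespace Pool.Agent.QUD.H35

open MeasureTheory Filter Topology Real Set Pool.Agent.AEU Pool.Agent.AEU.H12 Pool.Agent.XQ
  Pool.Agent.XQ.U

theorem om_obt {p : ℝ × ℝ} (h : obt p) : om p = 0 := if_pos h

theorem wt_eq {α : ℝ} {p : ℝ × ℝ} (h : max p.1 p.2 = α) : wt α p = om p := if_pos h

theorem wt_ne {α : ℝ} {p : ℝ × ℝ} (h : max p.1 p.2 ≠ α) : wt α p = 0 := if_neg h

/-- expansion of the sum of the kernels with respect to a finite set of angles -/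
theorem om_sum (s : Finset ℝ) (f : ℝ → ℝ) (l : List (ℝ × ℝ))
    (h : ∀ p ∈ l, ¬ obt p → max p.1 p.2 ∈ s) :
    (l.map fun p => om p * f (max p.1 p.2)).sum = ∑ α ∈ s, (l.map (wt α)).sum * f α := by
  induction l with
  | nil => simp
  | cons p l ih =>
    have ih' := ih fun q hq => h q (List.mem_cons_of_mem _ hq)
    have hp := h p (by simp)
    have e : om p * f (max p.1 p.2) = ∑ α ∈ s, wt α p * f α := by
      by_cases ho : obt p
      · rw [om_obt ho, zero_mul]
        refine (Finset.sum_eq_zero fun α _ => ?_).symm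
        by_cases hm : max p.1 p.2 = α
        · rw [wt_eq hm, om_obt ho, zero_mul]
        · rw [wt_ne hm, zero_mul]
      · rw [Finset.sum_eq_single (max p.1 p.2)]
        · rw [wt_eq rfl]
        · intro α _ hα
          rw [wt_ne (Ne.symm hα), zero_mul]
        · intro hn
          exact absurd (hp ho) hn
    simp only [List.map_cons, List.sum_cons]
    rw [ih', e, ← Finset.sum_add_distrib]
    refine Finset.sum_congr rfl fun α _ => ?_
    ring

theorem wt_zero {α : ℝ} (l : List (ℝ × ℝ)) (h : ∀ p ∈ l, ¬ obt p → max p.1 p.2 ≠ α) :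
    (l.map (wt α)).sum = 0 := by
  induction l with
  | nil => simp
  | cons p l ih =>
    have ih' := ih fun q hq => h q (List.mem_cons_of_mem _ hq)
    have hp := h p (by simp)
    simp only [List.map_cons, List.sum_cons]
    rw [ih', add_zero]
    by_cases ho : obt p
    · by_cases hm : max p.1 p.2 = α
      · rw [wt_eq hm, om_obt ho]
      · rw [wt_ne hm]
    · exact wt_ne (hp ho)

theorem dB_sum (l : List (ℝ × ℝ)) (v : ℝ) : (l.map (dB v)).sum =
    (l.map ct).sum - (l.map fun p => om p * KKf (π / max p.1 p.2) (2 * v)).sum := by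
  induction l with
  | nil => simp
  | cons p l ih =>
    simp only [List.map_cons, List.sum_cons]
    rw [ih]
    unfold dB
    ring

theorem kil_max {p : ℝ × ℝ} (h : Kil p) : π / 2 < max p.1 p.2 ∧ max p.1 p.2 < π := by
  obtain ⟨h1, h2, h3, h4, h5⟩ := h
  refine ⟨?_, max_lt h2 h4⟩
  have a1 := le_max_left p.1 p.2
  have a2 := le_max_right p.1 p.2
  linarith

/-- SEU -/
theorem seu (hsp2 : Sp2Stmt) (hala : AlaStmt) (halb : AlbStmt) (hdec : DecStmt)
    (hlin : LinStmt) : SeuStmt := by
  classical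
  intro L l l' hL hl hl' hsm
  obtain ⟨AP, okAP, -, gAP, cAP, dAP⟩ := hdec L l hl
  obtain ⟨AQ, okAQ, -, gAQ, cAQ, dAQ⟩ := hdec L l' hl'
  have hsm' : Small L (fun κ => (fun κ => SumA L AP κ - SumA L AQ κ) κ +
      (fun κ => (l.map (gBp L κ)).sum - (l'.map (gBp L κ)).sum) κ) := by
    have e : (fun κ => (fun κ => SumA L AP κ - SumA L AQ κ) κ +
      (fun κ => (l.map (gBp L κ)).sum - (l'.map (gBp L κ)).sum) κ) =
        fun κ => gsum L l κ - gsum L l' κ := by
      funext κ
      show SumA L AP κ - SumA L AQ κ + ((l.map (gBp L κ)).sum - (l'.map (gBp L κ)).sum) =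
        gsum L l κ - gsum L l' κ
      rw [gAP κ, gAQ κ]
      ring
    rw [e]
    exact hsm
  obtain ⟨hA, hB⟩ := hsp2 L _ _ _ _ hL (hala L AP AQ hL okAP okAQ) (halb L l l' hL hl hl') hsm'
  obtain ⟨hA1, hA2⟩ := hA
  rw [cAP, cAQ] at hA1
  refine ⟨hA1, ?_, ?_⟩
  · filter_upwards [hA2] with z hz
    rw [dAP z, dAQ z] at hz
    exact hz
  · set s : Finset ℝ :=
      (((l ++ l').filter (fun p => decide (¬ obt p))).map (fun p => max p.1 p.2)).toFinset with hs
    have mem : ∀ p ∈ l ++ l', ¬ obt p → max p.1 p.2 ∈ s := by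
      intro p hp ho
      rw [hs, List.mem_toFinset, List.mem_map]
      exact ⟨p, List.mem_filter.mpr ⟨hp, by simpa using ho⟩, rfl⟩
    have hs2 : ∀ α ∈ s, π / 2 < α ∧ α < π := by
      intro α hα
      rw [hs, List.mem_toFinset, List.mem_map] at hα
      obtain ⟨p, hp, rfl⟩ := hα
      have hp' := (List.mem_filter.mp hp).1
      rcases List.mem_append.mp hp' with h | h
      · exact kil_max (hl p h)
      · exact kil_max (hl' p h)
    have m1 : ∀ p ∈ l, ¬ obt p → max p.1 p.2 ∈ s := fun p hp =>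
      mem p (List.mem_append.mpr (Or.inl hp))
    have m2 : ∀ p ∈ l', ¬ obt p → max p.1 p.2 ∈ s := fun p hp =>
      mem p (List.mem_append.mpr (Or.inr hp))
    have key := hlin s (fun α => (l'.map (wt α)).sum - (l.map (wt α)).sum)
      ((l.map ct).sum - (l'.map ct).sum) hs2 (by
        intro v
        have h1 := hB v
        rw [dB_sum, dB_sum, om_sum s (fun α => KKf (π / α) (2 * v)) l m1,
          om_sum s (fun α => KKf (π / α) (2 * v)) l' m2] at h1
        have h2 : ∑ α ∈ s, ((l'.map (wt α)).sum - (l.map (wt α)).sum) * KKf (π / α) (2 * v) =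
            ∑ α ∈ s, (l'.map (wt α)).sum * KKf (π / α) (2 * v) -
            ∑ α ∈ s, (l.map (wt α)).sum * KKf (π / α) (2 * v) := by
          rw [← Finset.sum_sub_distrib]
          refine Finset.sum_congr rfl fun α _ => ?_
          ring
        show (l.map ct).sum - (l'.map ct).sum +
          ∑ α ∈ s, ((l'.map (wt α)).sum - (l.map (wt α)).sum) * KKf (π / α) (2 * v) = 0
        rw [h2]
        linarith)
    obtain ⟨k1, k2⟩ := key
    refine ⟨fun α => ?_, by linarith⟩
    by_cases hα : α ∈ s
    · have := k2 α hα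
      have h3 : (l'.map (wt α)).sum - (l.map (wt α)).sum = 0 := this
      linarith
    · have z1 : (l.map (wt α)).sum = 0 := wt_zero l fun p hp ho he => hα (by
        rw [← he]; exact m1 p hp ho)
      have z2 : (l'.map (wt α)).sum = 0 := wt_zero l' fun p hp ho he => hα (by
        rw [← he]; exact m2 p hp ho)
      rw [z1, z2]

end Pool.Agent.QUD.H35
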